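import Pool.Agent.Lib.MP_eff972_al.Final

/-!
# A finitely generated group with automorphic growth rate `n ^ 2 log n`

There is a finitely generated group whose automorphic growth rate is polynomially bounded but
not polynomial.  The witness is the integral Heisenberg group extended by the rotation of order
four of its abelianisation.
-/

namespace Pool.Agent.Results.MP_eff972_al.HeisenbergRotation

open Pool.Agent.Lib.MP_eff972_al

/-- There is a finitely generated group `G` such that for every finite generating set `S` of `G`
the automorphic growth function of `G` with respect to `S` is equivalent to `n ^ 2 log n`; it is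
bounded by a polynomial, and it is not equivalent to `n ^ k` for any integer `k ≥ 0`. -/
theorem result : ∃ (G : Type) (_ : Group G), Group.FG G ∧
    ∀ S : Set G, S.Finite → Subgroup.closure S = ⊤ →
      GrowthEquiv (autGrowth S) (fun n => n ^ 2 * Nat.log 2 n) ∧
      (∃ d : ℕ, Dominated (autGrowth S) (fun n => n ^ d)) ∧
      ¬ ∃ k : ℕ, GrowthEquiv (autGrowth S) (fun n => n ^ k) :=
  ⟨HR, inferInstance, HR.fg, fun S hfin hS =>
    ⟨HR.growth_equiv S hfin hS, HR.poly_bounded S hfin hS, HR.not_polynomial S hfin hS⟩⟩

end Pool.Agent.Results.MP_eff972_al.HeisenbergRotation
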